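import Mathlib
import Pool.Agent.H2.L.R_seed8.H388SL.Energy
import Pool.Agent.H2.L.R_seed8.H388SL.Field

/-!
# The Dobrowolski inequality from the energy inequality
-/

set_option autoImplicit false

open Finset Polynomial Module

namespace Pool.Agent.H388SL

variable {K : Type*} [Field K] [NumberField K]

/-- sum of `log⁺` over the conjugates -/
noncomputable def lam (α : K) : ℝ := ∑ σ : K →ₐ[ℚ] ℂ, Real.log (max 1 ‖σ α‖)

lemma lam_nonneg (α : K) : 0 ≤ lam α :=
  Finset.sum_nonneg fun _ _ => Real.log_nonneg (le_max_left _ _)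

lemma log_max_pow (z : ℂ) (n : ℕ) : Real.log (max 1 ‖z ^ n‖) = n * Real.log (max 1 ‖z‖) := by
  rw [norm_pow]
  rcases le_total ‖z‖ 1 with h | h
  · rw [max_eq_left h, max_eq_left (pow_le_one₀ (norm_nonneg _) h), Real.log_one, mul_zero]
  · rw [max_eq_right h, max_eq_right (one_le_pow₀ h), Real.log_pow]

lemma lam_pow (α : K) (n : ℕ) : lam (α ^ n) = n * lam α := by
  unfold lam
  rw [Finset.mul_sum]
  refine Finset.sum_congr rfl fun σ _ => ?_
  rw [map_pow, log_max_pow]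

lemma lam_pos {α : K} (hα : IsIntegral ℤ α) (h0 : α ≠ 0) (hroot : ∀ n : ℕ, 0 < n → α ^ n ≠ 1) :
    0 < lam α := by
  rcases (lam_nonneg α).lt_or_eq with h | h
  · exact h
  · exfalso
    have h1 : ∀ σ : K →ₐ[ℚ] ℂ, ‖σ α‖ ≤ 1 := by
      intro σ
      have h2 := (Finset.sum_eq_zero_iff_of_nonneg
        (fun (σ : K →ₐ[ℚ] ℂ) _ => Real.log_nonneg (le_max_left 1 ‖σ α‖))).mp h.symm σ (Finset.mem_univ _)
      by_contra h3
      push Not at h3
      rw [max_eq_right h3.le] at h2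
      have := Real.log_pos h3
      linarith
    obtain ⟨n, hn, hn1⟩ := NumberField.Embeddings.pow_eq_one_of_norm_le_one K ℂ h0 hα
      (fun φ => h1 (RingHom.equivRatAlgHom K ℂ φ))
    exact hroot n hn hn1

lemma sum_eq_of_minpoly_eq {β γ : K} (hβ : CInj β) (hγ : CInj γ) (h : minpoly ℚ β = minpoly ℚ γ) :
    lam β = lam γ := by
  have h1 := congrArg (fun P => ((P.map (algebraMap ℚ ℂ)).roots.map
    (fun z => Real.log (max 1 ‖z‖))).sum) h
  rw [minpoly_map_eq hβ, minpoly_map_eq hγ] at h1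
  rw [Finset.prod_eq_multiset_prod, Finset.prod_eq_multiset_prod] at h1
  have e : ∀ δ : K, (Multiset.map (fun τ : K →ₐ[ℚ] ℂ => X - C (τ δ)) Finset.univ.val) =
      Multiset.map (fun a : ℂ => X - C a) (Multiset.map (fun τ : K →ₐ[ℚ] ℂ => τ δ) Finset.univ.val) := by
    intro δ
    rw [Multiset.map_map]; rfl
  rw [e, e, Polynomial.roots_multiset_prod_X_sub_C, Polynomial.roots_multiset_prod_X_sub_C,
    Multiset.map_map, Multiset.map_map] at h1
  exact h1

lemma conj_ne {α : K} (hα : IsIntegral ℤ α) (h0 : α ≠ 0) (hroot : ∀ n : ℕ, 0 < n → α ^ n ≠ 1)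
    {p q : ℕ} (hpq : p ≠ q) (hp : CInj (α ^ p)) (hq : CInj (α ^ q)) (σ τ : K →ₐ[ℚ] ℂ) :
    σ (α ^ p) ≠ τ (α ^ q) := by
  intro h
  have h1 : minpoly ℚ (σ (α ^ p)) = minpoly ℚ (α ^ p) := minpoly.algHom_eq σ σ.injective _
  have h2 : minpoly ℚ (τ (α ^ q)) = minpoly ℚ (α ^ q) := minpoly.algHom_eq τ τ.injective _
  have h3 := sum_eq_of_minpoly_eq hp hq (by rw [← h1, ← h2, h])
  rw [lam_pow, lam_pow] at h3
  have h4 := lam_pos hα h0 hroot
  have h5 : (p : ℝ) = q := mul_right_cancel₀ h4.ne' h3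
  exact hpq (by exact_mod_cast h5)

/-- the energy inequality applied to `α` and prime powers of `α` -/
theorem dob_ineq {α : K} (hα : IsIntegral ℤ α) (h0 : α ≠ 0) (hroot : ∀ n : ℕ, 0 < n → α ^ n ≠ 1)
    (hc : CInj α) (P : Finset ℕ) (hP : ∀ p ∈ P, p.Prime) (hPc : ∀ p ∈ P, CInj (α ^ p))
    {A : ℝ} (hA : 0 ≤ A) {N : ℝ} (hN : 1 ≤ N) :
    2 * A * ∑ p ∈ P, Real.log p ≤
      2 * (A + P.card) * (A + ∑ p ∈ P, (p : ℝ)) * lam α
        + finrank ℚ K * (A + P.card) ^ 2 / N + (A ^ 2 + P.card) * Real.log N := by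
  classical
  set d := finrank ℚ K with hd
  have hd0 : 0 < d := finrank_pos
  have hcard : Fintype.card (K →ₐ[ℚ] ℂ) = d := AlgHom.card ℚ K ℂ
  have h1P : 1 ∉ P := fun h => Nat.not_prime_one (hP 1 h)
  set Q : Finset ℕ := insert 1 P with hQ
  have hQc : ∀ p ∈ Q, CInj (α ^ p) := by
    intro p hp
    rw [hQ, Finset.mem_insert] at hp
    rcases hp with rfl | hp
    · rw [pow_one]; exact hc
    · exact hPc p hp
  set x : ℕ × (K →ₐ[ℚ] ℂ) → ℝ := fun i => if i.1 = 1 then A else 1 with hx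
  set z : ℕ × (K →ₐ[ℚ] ℂ) → ℂ := fun i => i.2 (α ^ i.1) with hz
  set s : Finset (ℕ × (K →ₐ[ℚ] ℂ)) := Q ×ˢ Finset.univ with hs
  have hx0 : ∀ i ∈ s, 0 ≤ x i := by
    intro i _
    rw [hx]; dsimp only; split_ifs
    · exact hA
    · exact zero_le_one
  have hinj : ∀ i ∈ s, ∀ j ∈ s, i ≠ j → z i ≠ z j := by
    rintro ⟨p, σ⟩ hi ⟨q, τ⟩ hj hij
    rw [hs, Finset.mem_product] at hi hj
    by_cases hpq : p = q
    · subst hpq
      intro h
      have h' : σ = τ := hQc p hi.1 h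
      exact hij (by rw [h'])
    · exact conj_ne hα h0 hroot hpq (hQc p hi.1) (hQc q hj.1) σ τ
  have ht0 : 0 ≤ 1 - 1 / N := by
    rw [sub_nonneg, div_le_one (by linarith)]; exact hN
  have ht1 : 1 - 1 / N < 1 := by
    have : 0 < 1 / N := by positivity
    linarith
  have hE := energy s x hx0 z hinj ht0 ht1
  -- lower bound of the left side
  set E : ℕ → ℕ → ℝ := fun p q => ∑ σ : K →ₐ[ℚ] ℂ, ∑ τ : K →ₐ[ℚ] ℂ,
    (if ((p, σ) : ℕ × (K →ₐ[ℚ] ℂ)) = (q, τ) then 0 else x (p, σ) * x (q, τ) * Real.log ‖z (p, σ) - z (q, τ)‖)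
    with hEdef
  have hLHS : ∑ i ∈ s, ∑ j ∈ s, (if i = j then 0 else x i * x j * Real.log ‖z i - z j‖)
      = ∑ p ∈ Q, ∑ q ∈ Q, E p q := by
    rw [hs, Finset.sum_product]
    refine Finset.sum_congr rfl fun p _ => ?_
    rw [hEdef]
    dsimp only
    conv_rhs => rw [Finset.sum_comm]
    refine Finset.sum_congr rfl fun σ _ => ?_
    rw [Finset.sum_product]
  have hEnn : ∀ p ∈ Q, ∀ q ∈ Q, 0 ≤ E p q := by
    intro p hp q hq
    have hxp : 0 ≤ (if p = 1 then A else 1 : ℝ) := by split_ifs; exacts [hA, zero_le_one]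
    have hxq : 0 ≤ (if q = 1 then A else 1 : ℝ) := by split_ifs; exacts [hA, zero_le_one]
    by_cases hpq : p = q
    · subst hpq
      have h1 := one_le_disc (hα.pow p) (hQc p hp)
      have h2 := Real.log_nonneg h1
      rw [Real.log_prod] at h2
      · have h3 : E p p = ((if p = 1 then A else 1 : ℝ) * (if p = 1 then A else 1 : ℝ)) *
            ∑ σ : K →ₐ[ℚ] ℂ, Real.log (∏ τ ∈ Finset.univ.erase σ, ‖σ (α ^ p) - τ (α ^ p)‖) := by
          rw [hEdef]; dsimp only
          rw [Finset.mul_sum]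
          refine Finset.sum_congr rfl fun σ _ => ?_
          rw [Real.log_prod, Finset.mul_sum, ← Finset.add_sum_erase _ _ (Finset.mem_univ σ), if_pos rfl, zero_add]
          · refine Finset.sum_congr rfl fun τ hτ => ?_
            rw [if_neg]
            intro h
            exact (Finset.ne_of_mem_erase hτ) (Prod.ext_iff.mp h).2.symm
          · intro τ hτ h
            exact (Finset.ne_of_mem_erase hτ) (hQc p hp (sub_eq_zero.mp (norm_eq_zero.mp h))).symm
        rw [h3]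
        exact mul_nonneg (mul_nonneg hxp hxp) h2
      · intro σ _ h
        obtain ⟨τ, hτ, h⟩ := Finset.prod_eq_zero_iff.mp h
        exact (Finset.ne_of_mem_erase hτ) (hQc p hp (sub_eq_zero.mp (norm_eq_zero.mp h))).symm
    · have hne := conj_ne hα h0 hroot hpq (hQc p hp) (hQc q hq)
      have h1 := one_le_cross (hα.pow p) (hα.pow q) (hQc q hq) hne
      have h2 := Real.log_nonneg h1
      rw [Real.log_prod] at h2
      · have h3 : E p q = ((if p = 1 then A else 1 : ℝ) * (if q = 1 then A else 1 : ℝ)) *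
            ∑ σ : K →ₐ[ℚ] ℂ, Real.log (∏ τ : K →ₐ[ℚ] ℂ, ‖σ (α ^ p) - τ (α ^ q)‖) := by
          rw [hEdef]; dsimp only
          rw [Finset.mul_sum]
          refine Finset.sum_congr rfl fun σ _ => ?_
          rw [Real.log_prod, Finset.mul_sum]
          · refine Finset.sum_congr rfl fun τ hτ => ?_
            rw [if_neg]
            intro h
            exact hpq (Prod.ext_iff.mp h).1
          · intro τ hτ h
            exact hne σ τ (sub_eq_zero.mp (norm_eq_zero.mp h))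
        rw [h3]
        exact mul_nonneg (mul_nonneg hxp hxq) h2
      · intro σ _ h
        obtain ⟨τ, hτ, h⟩ := Finset.prod_eq_zero_iff.mp h
        exact hne σ τ (sub_eq_zero.mp (norm_eq_zero.mp h))
  have hE1 : ∀ p ∈ P, A * (d * Real.log p) ≤ E p 1 ∧ A * (d * Real.log p) ≤ E 1 p := by
    intro p hp
    have hpp := hP p hp
    have hp1 : p ≠ 1 := hpp.ne_one
    have hne' := conj_ne hα h0 hroot hp1 (hPc p hp) (by rw [pow_one]; exact hc)
    have hne : ∀ σ τ : K →ₐ[ℚ] ℂ, σ (α ^ p) ≠ τ α := by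
      intro σ τ
      have := hne' σ τ
      rwa [pow_one] at this
    have h1 := pow_le_frob hα hc p hpp hne
    have hp0 : (0:ℝ) < p := by exact_mod_cast hpp.pos
    have h2 := Real.log_le_log (by positivity) h1
    rw [Real.log_pow, Real.log_prod] at h2
    · have h3 : E p 1 = A * ∑ σ : K →ₐ[ℚ] ℂ, Real.log (∏ τ : K →ₐ[ℚ] ℂ, ‖σ (α ^ p) - τ α‖) := by
        rw [hEdef]; dsimp only
        rw [Finset.mul_sum]
        refine Finset.sum_congr rfl fun σ _ => ?_
        rw [Real.log_prod, Finset.mul_sum]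
        · refine Finset.sum_congr rfl fun τ hτ => ?_
          rw [if_neg, hx, hz]
          · dsimp only
            rw [if_neg hp1, if_pos rfl, one_mul, pow_one]
          · intro h
            exact hp1 (Prod.ext_iff.mp h).1
        · intro τ hτ h
          exact hne σ τ (sub_eq_zero.mp (norm_eq_zero.mp h))
      have h4 : E 1 p = E p 1 := by
        rw [hEdef]; dsimp only
        rw [Finset.sum_comm]
        refine Finset.sum_congr rfl fun σ _ => ?_
        refine Finset.sum_congr rfl fun τ _ => ?_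
        rw [if_neg, if_neg]
        · rw [norm_sub_rev]; ring
        · intro h
          exact hp1 (Prod.ext_iff.mp h).1
        · intro h
          exact hp1 (Prod.ext_iff.mp h).1.symm
      rw [h4, h3]
      exact ⟨mul_le_mul_of_nonneg_left h2 hA, mul_le_mul_of_nonneg_left h2 hA⟩
    · intro σ _ h
      obtain ⟨τ, hτ, h⟩ := Finset.prod_eq_zero_iff.mp h
      exact hne σ τ (sub_eq_zero.mp (norm_eq_zero.mp h))
  have hlow : 2 * A * d * ∑ p ∈ P, Real.log p ≤ ∑ p ∈ Q, ∑ q ∈ Q, E p q := by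
    have e1 : ∑ p ∈ Q, ∑ q ∈ Q, E p q = (E 1 1 + ∑ q ∈ P, E 1 q) + ∑ p ∈ P, (E p 1 + ∑ q ∈ P, E p q) := by
      rw [hQ, Finset.sum_insert h1P, Finset.sum_insert h1P]
      congr 1
      refine Finset.sum_congr rfl fun p _ => ?_
      rw [Finset.sum_insert h1P]
    have m1 : (1:ℕ) ∈ Q := Finset.mem_insert_self _ _
    have mP : ∀ p ∈ P, p ∈ Q := fun p hp => Finset.mem_insert_of_mem hp
    have i1 : 0 ≤ E 1 1 := hEnn 1 m1 1 m1
    have i2 : ∑ p ∈ P, A * (d * Real.log p) ≤ ∑ q ∈ P, E 1 q :=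
      Finset.sum_le_sum fun p hp => (hE1 p hp).2
    have i3 : ∑ p ∈ P, A * (d * Real.log p) ≤ ∑ p ∈ P, (E p 1 + ∑ q ∈ P, E p q) := by
      refine Finset.sum_le_sum fun p hp => ?_
      have := (hE1 p hp).1
      have h2 : 0 ≤ ∑ q ∈ P, E p q := Finset.sum_nonneg fun q hq => hEnn p (mP p hp) q (mP q hq)
      linarith
    have e2 : ∑ p ∈ P, A * (d * Real.log p) = A * d * ∑ p ∈ P, Real.log p := by
      rw [Finset.mul_sum]
      refine Finset.sum_congr rfl fun p _ => ?_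
      ring
    rw [e2] at i2 i3
    rw [e1]
    linarith
  -- right side
  have r1 : ∑ i ∈ s, x i = d * (A + P.card) := by
    rw [hs, Finset.sum_product, hQ, Finset.sum_insert h1P]
    have : ∀ p ∈ P, ∑ σ : K →ₐ[ℚ] ℂ, x (p, σ) = d := by
      intro p hp
      simp [hx, (hP p hp).ne_one, hcard]
    rw [Finset.sum_congr rfl this, Finset.sum_const, nsmul_eq_mul]
    have h1 : ∑ σ : K →ₐ[ℚ] ℂ, x (1, σ) = d * A := by
      simp [hx, hcard]
    rw [h1]
    ring
  have r2 : ∑ i ∈ s, x i ^ 2 = d * (A ^ 2 + P.card) := by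
    rw [hs, Finset.sum_product, hQ, Finset.sum_insert h1P]
    have : ∀ p ∈ P, ∑ σ : K →ₐ[ℚ] ℂ, x (p, σ) ^ 2 = d := by
      intro p hp
      simp [hx, (hP p hp).ne_one, hcard]
    rw [Finset.sum_congr rfl this, Finset.sum_const, nsmul_eq_mul]
    have h1 : ∑ σ : K →ₐ[ℚ] ℂ, x (1, σ) ^ 2 = d * A ^ 2 := by
      simp [hx, hcard]
    rw [h1]
    ring
  have r3 : ∑ i ∈ s, x i * Real.log (max 1 ‖z i‖) = (A + ∑ p ∈ P, (p : ℝ)) * lam α := by
    rw [hs, Finset.sum_product, hQ, Finset.sum_insert h1P]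
    have : ∀ p ∈ P, ∑ σ : K →ₐ[ℚ] ℂ, x (p, σ) * Real.log (max 1 ‖z (p, σ)‖) = p * lam α := by
      intro p hp
      rw [← lam_pow, lam]
      refine Finset.sum_congr rfl fun σ _ => ?_
      simp [hx, hz, (hP p hp).ne_one]
    rw [Finset.sum_congr rfl this, ← Finset.sum_mul]
    have h1 : ∑ σ : K →ₐ[ℚ] ℂ, x (1, σ) * Real.log (max 1 ‖z (1, σ)‖) = A * lam α := by
      rw [lam, Finset.mul_sum]
      refine Finset.sum_congr rfl fun σ _ => ?_
      simp [hx, hz]
    rw [h1]; ring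
  rw [hLHS, r1, r2, r3] at hE
  have hN0 : 0 < N := by linarith
  have e1 : 1 / (1 - (1 - 1 / N)) = N := by
    field_simp; ring
  rw [e1] at hE
  -- bound for log (2 / (1 + t))
  have e2 : Real.log (2 / (1 + (1 - 1 / N))) ≤ 1 / N := by
    have h1 : 1 + (1 - 1 / N) = (2 * N - 1) / N := by field_simp; ring
    have h2 : 2 / (1 + (1 - 1 / N)) = 1 + 1 / (2 * N - 1) := by
      rw [h1]
      have : 2 * N - 1 ≠ 0 := by nlinarith
      field_simp; ring
    rw [h2]
    have h3 : 0 < 1 / (2 * N - 1) := by apply div_pos one_pos; nlinarith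
    have h4 := Real.log_le_sub_one_of_pos (show 0 < 1 + 1 / (2 * N - 1) by linarith)
    have h5 : 1 / (2 * N - 1) ≤ 1 / N := by
      apply one_div_le_one_div_of_le hN0; linarith
    linarith
  have h6 : 0 ≤ (1 - 1 / N) * ‖∑ i ∈ s, (x i : ℂ) * refl (z i)‖ ^ 2 := by positivity
  have h7 : ((d : ℝ) * (A + P.card)) ^ 2 * Real.log (2 / (1 + (1 - 1 / N))) ≤
      ((d : ℝ) * (A + P.card)) ^ 2 * (1 / N) := mul_le_mul_of_nonneg_left e2 (by positivity)
  have h8 : (d : ℝ) * (2 * A * ∑ p ∈ P, Real.log p) ≤ d * (2 * (A + P.card) * (A + ∑ p ∈ P, (p : ℝ)) * lam α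
        + d * (A + P.card) ^ 2 / N + (A ^ 2 + P.card) * Real.log N) := by
    have e3 : (d : ℝ) * (2 * (A + P.card) * (A + ∑ p ∈ P, (p : ℝ)) * lam α
        + d * (A + P.card) ^ 2 / N + (A ^ 2 + P.card) * Real.log N) =
        2 * ((d : ℝ) * (A + P.card)) * ((A + ∑ p ∈ P, (p : ℝ)) * lam α) +
          ((d : ℝ) * (A + P.card)) ^ 2 * (1 / N) + (d * (A ^ 2 + P.card)) * Real.log N := by
      ring
    rw [e3]
    nlinarith
  have hd' : (0:ℝ) < d := by exact_mod_cast hd0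
  exact le_of_mul_le_mul_left h8 hd'

end Pool.Agent.H388SL
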