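import Mathlib
import Pool.Agent.H2.L.R_seed8.H388SL.DobB

/-!
# A Dobrowolski-type lower bound
-/

set_option autoImplicit false

open Finset Polynomial Module

namespace Pool.Agent.H388SL

lemma exists_Y0 : ∃ Y0 : ℕ, 1 ≤ Y0 ∧ ∀ n : ℕ, Y0 ≤ n → 1 + 4 * Real.log (2 * n) ≤ Real.sqrt n / 8 := by
  have h1 : Filter.Tendsto (fun x : ℝ => Real.log x / x) Filter.atTop (nhds 0) := by
    have := Real.isLittleO_log_id_atTop
    have h2 := this.tendsto_div_nhds_zero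
    simpa using h2
  have h3 : ∀ᶠ x : ℝ in Filter.atTop, Real.log x / x < 1 / 1000 :=
    h1.eventually (gt_mem_nhds (by norm_num))
  obtain ⟨x0, hx0⟩ := Filter.eventually_atTop.mp h3
  obtain ⟨m, hm⟩ := exists_nat_ge (max x0 1000)
  refine ⟨(m + 1) ^ 2, Nat.one_le_pow _ _ (Nat.succ_pos m), ?_⟩
  intro n hn
  have hm0 : x0 ≤ m := (le_max_left _ _).trans hm
  have hm1 : (1000:ℝ) ≤ m := (le_max_right _ _).trans hm
  have hn' : ((m:ℝ) + 1) ^ 2 ≤ n := by exact_mod_cast hn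
  have hs : (m:ℝ) + 1 ≤ Real.sqrt n := by
    rw [← Real.sqrt_sq (by positivity : (0:ℝ) ≤ (m:ℝ) + 1)]
    exact Real.sqrt_le_sqrt hn'
  set r := Real.sqrt n with hr
  have hr0 : 0 < r := by linarith
  have hr2 : r ^ 2 = n := Real.sq_sqrt (Nat.cast_nonneg n)
  have h4 := hx0 r (by linarith)
  rw [div_lt_iff₀ hr0] at h4
  have h5 : Real.log (2 * n) = Real.log 2 + 2 * Real.log r := by
    rw [← hr2, Real.log_mul (by norm_num) (by positivity), Real.log_pow]; norm_num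
  have h6 := Real.log_two_lt_d9
  rw [h5]
  nlinarith

lemma theta_half {Y0 : ℕ} (hY : ∀ n : ℕ, Y0 ≤ n → 1 + 4 * Real.log (2 * n) ≤ Real.sqrt n / 8)
    (n : ℕ) (hn : Y0 ≤ n) (hn1 : 1 ≤ n) : (n : ℝ) / 2 ≤ Chebyshev.theta n := by
  have h1 := Chebyshev.theta_ge n
  have h2 := hY n hn
  have hn1' : (1:ℝ) ≤ n := by exact_mod_cast hn1
  set r := Real.sqrt n with hr
  have hr2 : r ^ 2 = n := Real.sq_sqrt (Nat.cast_nonneg n)
  have hr1 : 1 ≤ r := by
    rw [hr, ← Real.sqrt_one]; exact Real.sqrt_le_sqrt hn1'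
  have h3 : Real.log (n + 1) ≤ Real.log (2 * n) := by
    apply Real.log_le_log (by linarith); linarith
  have h4 : Real.log n ≤ Real.log (2 * n) := by
    apply Real.log_le_log (by linarith); linarith
  have h5 := Real.log_two_gt_d9
  have h6 : Real.log (2 * n) ≤ r / 32 := by linarith
  have h7 : 2 * r * Real.log n ≤ 2 * r * (r / 32) :=
    mul_le_mul_of_nonneg_left (h4.trans h6) (by linarith)
  have h8 : (n:ℝ) * Real.log 2 ≥ n * 0.6931 := by
    apply mul_le_mul_of_nonneg_left _ (by linarith); linarith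
  nlinarith

/-- the real-variable part of the proof of `dob` -/
lemma real_final {C l d Y r S s SP lm : ℝ} (hC64 : 64 ≤ C) (hl0 : 0 < l)
    (hlog2 : 0.6931471803 < Real.log 2) (hl2 : Real.log 2 ≤ l) (hld : Real.log d ≤ l) (hd1 : 1 ≤ d)
    (hYge : C * l ^ 2 ≤ Y) (hYle : Y ≤ C * l ^ 2 + 1) (hY1 : 1 ≤ Y) (hr2 : r ^ 2 = Y) (hr1 : 1 ≤ r)
    (hlr : 8 * l ≤ r)
    (hasy : 1 + 4 * Real.log (2 * Y) ≤ r / 8)
    (hPsum : Y / 4 ≤ S) (hs0 : 0 ≤ s) (hs : s ≤ Y) (hSP0 : 0 ≤ SP) (hSP : SP ≤ Y * Y)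
    (hlam : 0 ≤ lm) (hN1 : 1 ≤ d * (2 * Y) ^ 2)
    (hmain : 2 * r * S ≤ 2 * (r + s) * (r + SP) * lm + d * (r + s) ^ 2 / (d * (2 * Y) ^ 2)
      + (r ^ 2 + s) * Real.log (d * (2 * Y) ^ 2)) :
    1 / (64 * (C + 3) ^ 2) / l ^ 3 ≤ lm := by
  have hrY : r ≤ Y := by rw [← hr2]; nlinarith
  have hrY2 : r ≤ Y * Y := by nlinarith
  have t1 : 2 * (r + s) * (r + SP) * lm ≤ 8 * Y ^ 3 * lm := by
    apply mul_le_mul_of_nonneg_right _ hlam
    have h1 : 2 * (r + s) ≤ 4 * Y := by linarith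
    have h2 : r + SP ≤ 2 * (Y * Y) := by linarith
    have h3 := mul_le_mul h1 h2 (by linarith) (by linarith)
    have e : 4 * Y * (2 * (Y * Y)) = 8 * Y ^ 3 := by ring
    linarith
  have t2 : d * (r + s) ^ 2 / (d * (2 * Y) ^ 2) ≤ 1 := by
    rw [div_le_one (by positivity)]
    have h1 : (r + s) ^ 2 ≤ (2 * Y) ^ 2 := by
      apply pow_le_pow_left₀ (by linarith); linarith
    exact mul_le_mul_of_nonneg_left h1 (by linarith)
  have t3 : Real.log (d * (2 * Y) ^ 2) ≤ l + 2 * Real.log (2 * Y) := by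
    rw [Real.log_mul (by positivity) (by positivity), Real.log_pow]
    push_cast
    linarith
  have t4 : (r ^ 2 + s) * Real.log (d * (2 * Y) ^ 2) ≤ (2 * Y) * (l + 2 * Real.log (2 * Y)) := by
    apply mul_le_mul _ t3 (Real.log_nonneg hN1) (by linarith)
    rw [hr2]; linarith
  have t5 : r * Y / 2 ≤ 2 * r * S := by
    have := mul_le_mul_of_nonneg_left hPsum (by linarith : 0 ≤ 2 * r)
    linarith
  have t7 : (2 * Y) * (l + 2 * Real.log (2 * Y)) ≤ (2 * Y) * (r / 8 + 2 * (r / 32 - 1/4)) := by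
    apply mul_le_mul_of_nonneg_left _ (by linarith)
    linarith
  have e8 : (2 * Y) * (r / 8 + 2 * (r / 32 - 1/4)) = 3 / 8 * (r * Y) - Y := by ring
  rw [e8] at t7
  have t8 : r * Y / 8 ≤ 8 * Y ^ 3 * lm := by linarith
  have t9 : r / 8 ≤ 8 * Y ^ 2 * lm := by
    have hY0' : 0 < Y := by linarith
    have e9 : (8 * Y ^ 2 * lm) * Y = 8 * Y ^ 3 * lm := by ring
    have : r / 8 * Y ≤ (8 * Y ^ 2 * lm) * Y := by rw [e9]; linarith
    exact le_of_mul_le_mul_right this hY0'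
  have hYl : Y ≤ (C + 3) * l ^ 2 := by
    have : 1 ≤ 3 * l ^ 2 := by nlinarith
    linarith
  have hY2 : Y ^ 2 ≤ ((C + 3) * l ^ 2) ^ 2 := pow_le_pow_left₀ (by linarith) hYl 2
  have u1 : l ≤ 8 * ((C + 3) * l ^ 2) ^ 2 * lm := by
    have h2 : 8 * Y ^ 2 * lm ≤ 8 * ((C + 3) * l ^ 2) ^ 2 * lm :=
      mul_le_mul_of_nonneg_right (by linarith) hlam
    linarith
  have hC0 : 0 < C + 3 := by linarith
  rw [div_div, div_le_iff₀ (by positivity)]
  have e3 : 8 * ((C + 3) * l ^ 2) ^ 2 * lm = l * (lm * (8 * (C + 3) ^ 2 * l ^ 3)) := by ring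
  rw [e3] at u1
  have h4 : l * 1 ≤ l * (lm * (8 * (C + 3) ^ 2 * l ^ 3)) := by linarith
  have h5 := le_of_mul_le_mul_left h4 hl0
  have h6 : 0 ≤ lm * (8 * (C + 3) ^ 2 * l ^ 3) := by positivity
  have e4 : lm * (64 * (C + 3) ^ 2 * l ^ 3) = 8 * (lm * (8 * (C + 3) ^ 2 * l ^ 3)) := by ring
  rw [e4]; linarith

/-- Dobrowolski-type bound -/
theorem dob : ∃ c : ℝ, 0 < c ∧ ∀ (K : Type) [Field K] [NumberField K] (α : K), IsIntegral ℤ α →
    α ≠ 0 → (∀ n : ℕ, 0 < n → α ^ n ≠ 1) → CInj α →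
    c / (Real.log (2 * finrank ℚ K)) ^ 3 ≤ lam α := by
  obtain ⟨Y0, hY01, hY0⟩ := exists_Y0
  set C : ℝ := max 64 (Y0 / (Real.log 2) ^ 2) with hC
  have hC64 : 64 ≤ C := le_max_left _ _
  have hCY : (Y0:ℝ) / (Real.log 2) ^ 2 ≤ C := le_max_right _ _
  have hlog2 : 0 < Real.log 2 := Real.log_pos (by norm_num)
  refine ⟨1 / (64 * (C + 3) ^ 2), by positivity, ?_⟩
  intro K _ _ α hα h0 hroot hc
  classical
  set d := finrank ℚ K with hd
  have hd0 : 1 ≤ d := finrank_pos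
  have hd1 : (1:ℝ) ≤ d := by exact_mod_cast hd0
  set l := Real.log (2 * d) with hl
  have hl2 : Real.log 2 ≤ l := Real.log_le_log (by norm_num) (by linarith)
  have hl0 : 0 < l := by linarith
  have hld : Real.log d ≤ l := Real.log_le_log (by linarith) (by linarith)
  set Y : ℕ := ⌈C * l ^ 2⌉₊ with hYdef
  have hYge : C * l ^ 2 ≤ Y := Nat.le_ceil _
  have hYle : (Y:ℝ) ≤ C * l ^ 2 + 1 := (Nat.ceil_lt_add_one (by positivity)).le
  have hY0Y : Y0 ≤ Y := by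
    have h1 : (Y0:ℝ) ≤ Y := by
      calc (Y0:ℝ) = Y0 / (Real.log 2) ^ 2 * (Real.log 2) ^ 2 := by field_simp
        _ ≤ C * l ^ 2 := by gcongr
        _ ≤ Y := hYge
    exact_mod_cast h1
  have hY1 : 1 ≤ Y := hY01.trans hY0Y
  have hY1' : (1:ℝ) ≤ Y := by exact_mod_cast hY1
  have hasy := hY0 Y hY0Y
  set r := Real.sqrt Y with hr
  have hr2 : r ^ 2 = Y := Real.sq_sqrt (Nat.cast_nonneg Y)
  have hr1 : 1 ≤ r := by
    rw [hr, ← Real.sqrt_one]; exact Real.sqrt_le_sqrt hY1'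
  have hlr : 8 * l ≤ r := by
    rw [hr]
    apply Real.le_sqrt_of_sq_le
    nlinarith [sq_nonneg l]
  -- the sets of primes
  set T : Finset ℕ := (Finset.Ioc 0 Y).filter Nat.Prime with hT
  set P := T.filter (fun p => CInj (α ^ p)) with hP
  set B := T.filter (fun p => ¬ CInj (α ^ p)) with hB
  have hTp : ∀ p ∈ T, p.Prime ∧ p ≤ Y := by
    intro p hp
    rw [hT, Finset.mem_filter, Finset.mem_Ioc] at hp
    exact ⟨hp.2, hp.1.2⟩
  have hth : Chebyshev.theta Y = ∑ p ∈ T, Real.log p := by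
    rw [Chebyshev.theta, Nat.floor_natCast]
  have hsplit : ∑ p ∈ T, Real.log p = ∑ p ∈ P, Real.log p + ∑ p ∈ B, Real.log p :=
    (Finset.sum_filter_add_sum_filter_not T _ _).symm
  have hBcard : (B.card : ℝ) * Real.log 2 ≤ l := by
    have h1 := card_bad h0 hc B (fun p hp => (hTp p (Finset.mem_filter.mp hp).1).1)
      (fun p hp => (Finset.mem_filter.mp hp).2)
    have h2 : ((2:ℝ) ^ B.card) ≤ d := by exact_mod_cast h1
    have h3 := Real.log_le_log (by positivity) h2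
    rw [Real.log_pow] at h3
    linarith
  have hBsum : ∑ p ∈ B, Real.log p ≤ B.card * Real.log Y := by
    rw [← nsmul_eq_mul]
    apply Finset.sum_le_card_nsmul
    intro p hp
    have h1 := hTp p (Finset.mem_filter.mp hp).1
    apply Real.log_le_log
    · exact_mod_cast h1.1.pos
    · exact_mod_cast h1.2
  have hlogY : Real.log Y ≤ Real.log (2 * Y) := by
    apply Real.log_le_log (by linarith); linarith
  have hlogY0 : 0 ≤ Real.log Y := Real.log_nonneg hY1'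
  have hlogr : Real.log (2 * Y) ≤ r / 32 := by linarith
  have hlog2' := Real.log_two_gt_d9
  have hBs2 : ∑ p ∈ B, Real.log p ≤ Y / 4 := by
    have h1 : (B.card : ℝ) ≤ r / 4 := by
      have : (B.card : ℝ) * (1/2) ≤ B.card * Real.log 2 := by
        apply mul_le_mul_of_nonneg_left _ (Nat.cast_nonneg _); linarith
      linarith
    calc ∑ p ∈ B, Real.log p ≤ B.card * Real.log Y := hBsum
      _ ≤ (r / 4) * (r / 32) := by
        apply mul_le_mul h1 (by linarith) hlogY0 (by linarith)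
      _ ≤ Y / 4 := by rw [← hr2]; nlinarith
  have hPsum : (Y:ℝ) / 4 ≤ ∑ p ∈ P, Real.log p := by
    have h1 := theta_half hY0 Y hY0Y hY1
    rw [hth, hsplit] at h1
    linarith
  have hN1 : (1:ℝ) ≤ d * (2 * Y) ^ 2 := by
    have : (1:ℝ) ≤ (2 * Y) ^ 2 := by nlinarith
    nlinarith
  have hmain := dob_ineq hα h0 hroot hc P (fun p hp => (hTp p (Finset.mem_filter.mp hp).1).1)
    (fun p hp => (Finset.mem_filter.mp hp).2) (A := r) (by linarith) (N := d * (2 * Y) ^ 2) hN1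
  rw [← hd] at hmain
  have hPcard : (P.card : ℝ) ≤ Y := by
    have h1 : P.card ≤ (Finset.Ioc 0 Y).card := by
      apply Finset.card_le_card
      exact (Finset.filter_subset _ _).trans (Finset.filter_subset _ _)
    rw [Nat.card_Ioc] at h1
    exact_mod_cast (by omega : P.card ≤ Y)
  have hPp : ∑ p ∈ P, (p : ℝ) ≤ Y * Y := by
    calc ∑ p ∈ P, (p : ℝ) ≤ P.card • (Y:ℝ) := by
          apply Finset.sum_le_card_nsmul
          intro p hp
          exact_mod_cast (hTp p (Finset.mem_filter.mp hp).1).2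
      _ = P.card * Y := by rw [nsmul_eq_mul]
      _ ≤ Y * Y := by gcongr
  have hPp0 : 0 ≤ ∑ p ∈ P, (p : ℝ) := Finset.sum_nonneg fun _ _ => Nat.cast_nonneg _
  exact real_final hC64 hl0 hlog2' hl2 hld hd1 hYge hYle hY1' hr2 hr1 hlr hasy
    hPsum (Nat.cast_nonneg _) hPcard hPp0 hPp (lam_nonneg α) hN1 hmain

end Pool.Agent.H388SL
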