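import Mathlib
import Pool.Agent.H2.L.R_seed8.H388SL.SparseC

/-!
# From number fields to polynomials
-/

set_option autoImplicit false

open Finset Polynomial Module IntermediateField

namespace Pool.Agent.H388SL

/-- Mahler measure of an integer polynomial -/
noncomputable def MM (f : ℤ[X]) : ℝ := (f.map (Int.castRingHom ℂ)).mahlerMeasure

lemma MM_pos {f : ℤ[X]} (hf : f ≠ 0) : 0 < MM f :=
  mahlerMeasure_pos_of_ne_zero ((Polynomial.map_ne_zero_iff (RingHom.injective_int _)).mpr hf)

lemma one_le_MM {f : ℤ[X]} (hf : f ≠ 0) : 1 ≤ MM f := by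
  have h := one_le_mahlerMeasure_of_one_le_norm_leadingCoeff
    (p := f.map (Int.castRingHom ℂ)) (by
      rw [Polynomial.leadingCoeff_map_of_injective (RingHom.injective_int _), eq_intCast,
        Complex.norm_intCast]
      exact_mod_cast Int.one_le_abs (leadingCoeff_ne_zero.mpr hf))
  exact h

lemma MM_mul (f g : ℤ[X]) : MM (f * g) = MM f * MM g := by
  rw [MM, Polynomial.map_mul, mahlerMeasure_mul]; rfl

lemma MM_neg (f : ℤ[X]) : MM (-f) = MM f := by
  have h : -f = C (-1) * f := by simp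
  rw [h, MM_mul]
  have : MM (C (-1)) = 1 := by
    rw [MM, Polynomial.map_C, mahlerMeasure_const]
    simp
  rw [this, one_mul]

lemma leadingCoeff_le_MM (f : ℤ[X]) : |(f.leadingCoeff : ℝ)| ≤ MM f := by
  have h := leadingCoeff_le_mahlerMeasure (f.map (Int.castRingHom ℂ))
  rw [Polynomial.leadingCoeff_map_of_injective (RingHom.injective_int _), eq_intCast,
    Complex.norm_intCast] at h
  exact h

lemma coeff_zero_le_MM (f : ℤ[X]) : |(f.coeff 0 : ℝ)| ≤ MM f := by
  rw [MM, mahlerMeasure_eq_leadingCoeff_mul_prod_roots]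
  have h1 : ((f.coeff 0 : ℤ) : ℂ) = (f.map (Int.castRingHom ℂ)).eval 0 := by
    rw [← Polynomial.coeff_zero_eq_eval_zero, Polynomial.coeff_map]; rfl
  have h2 : |(f.coeff 0 : ℝ)| = ‖((f.coeff 0 : ℤ) : ℂ)‖ := by
    rw [Complex.norm_intCast]
  rw [h2, h1, (IsAlgClosed.splits (f.map (Int.castRingHom ℂ))).eval_eq_prod_roots, norm_mul]
  apply mul_le_mul_of_nonneg_left _ (norm_nonneg _)
  have key : ∀ s : Multiset ℂ, ‖(s.map (fun a => 0 - a)).prod‖ ≤ (s.map (fun a => max 1 ‖a‖)).prod := by
    intro s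
    induction s using Multiset.induction_on with
    | empty => simp
    | cons a s ih =>
      rw [Multiset.map_cons, Multiset.map_cons, Multiset.prod_cons, Multiset.prod_cons, norm_mul]
      apply mul_le_mul _ ih (norm_nonneg _) (by positivity)
      rw [zero_sub, norm_neg]; exact le_max_right _ _
  exact key _

/-- the irreducible monic unit case -/
lemma irr_monic {c : ℝ}
    (hc : ∀ (K : Type) [Field K] [NumberField K] (α : K),
    IsIntegral ℤ α → α ≠ 0 → (∀ n : ℕ, 0 < n → α ^ n ≠ 1) → (∏ σ : K →ₐ[ℚ] ℂ, ‖σ α‖ = 1) →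
    ∀ F : ℤ[X], F ≠ 0 → aeval α F = 0 →
      c * finrank ℚ K / ((F.support.card : ℝ) ^ 2 * (Real.log (2 * F.support.card)) ^ 4) ≤
        F.natDegree * lam α)
    (p : ℤ[X]) (hp : Irreducible p) (hm : p.Monic) (hc0 : |(p.coeff 0 : ℝ)| = 1)
    (hroot : ∀ z : ℂ, aeval z p = 0 → z ≠ 0 ∧ ∀ n : ℕ, 0 < n → z ^ n ≠ 1)
    (F : ℤ[X]) (hF : F ≠ 0) (hpF : p ∣ F) :
    c * p.natDegree / ((F.support.card : ℝ) ^ 2 * (Real.log (2 * F.support.card)) ^ 4) ≤
        F.natDegree * Real.log (MM p) := by
  classical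
  have hdeg : p.natDegree ≠ 0 := by
    intro h
    have := hm.natDegree_eq_zero.mp h
    exact hp.not_isUnit (this ▸ isUnit_one)
  obtain ⟨z, hz⟩ := IsAlgClosed.exists_aeval_eq_zero ℂ p (by
    intro h
    exact hdeg (natDegree_eq_of_degree_eq_some h))
  have hzi : IsIntegral ℤ z := ⟨p, hm, by rw [← Polynomial.aeval_def]; exact hz⟩
  have hzQ : IsIntegral ℚ z := hzi.tower_top
  have hmin : minpoly ℤ z = p := by
    have h1 := minpoly.isIntegrallyClosed_dvd hzi hz
    have h2 : Associated (minpoly ℤ z) p :=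
      (minpoly.irreducible hzi).associated_of_dvd hp h1
    exact eq_of_monic_of_associated (minpoly.monic hzi) hm h2
  set L := adjoin ℚ {z} with hL
  have hfin : FiniteDimensional ℚ L := adjoin.finiteDimensional hzQ
  have : NumberField L := { to_charZero := inferInstance, to_finiteDimensional := hfin }
  set α : L := AdjoinSimple.gen ℚ z with hα
  have hαz : algebraMap L ℂ α = z := AdjoinSimple.algebraMap_gen ℚ z
  have hαi : IsIntegral ℤ α := by
    rw [← hαz] at hzi
    exact (isIntegral_algebraMap_iff (algebraMap L ℂ).injective).mp hzi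
  have hα0 : α ≠ 0 := by
    intro h
    rw [h, map_zero] at hαz
    exact (hroot z hz).1 hαz.symm
  have hαroot : ∀ n : ℕ, 0 < n → α ^ n ≠ 1 := by
    intro n hn h
    have h1 := congrArg (algebraMap L ℂ) h
    rw [map_pow, hαz, map_one] at h1
    exact (hroot z hz).2 n hn h1
  have hαc : CInj α := by
    intro σ τ h
    apply adjoin_algHom_ext ℚ (s := {z})
    intro x hx
    rw [Set.mem_singleton_iff] at hx
    subst hx
    exact h
  have hminα : minpoly ℤ α = p := by
    rw [← hmin, ← hαz]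
    exact (minpoly.algebraMap_eq (algebraMap L ℂ).injective α).symm
  have hpmap : p.map (Int.castRingHom ℂ) = ∏ τ : L →ₐ[ℚ] ℂ, (X - C (τ α)) := by
    rw [← minpoly_map_eq hαc, minpoly.isIntegrallyClosed_eq_field_fractions' ℚ hαi, hminα,
      Polynomial.map_map]
    rfl
  have hMM : Real.log (MM p) = lam α := by
    rw [MM, hpmap]
    have h1 : (∏ τ : L →ₐ[ℚ] ℂ, (X - C (τ α))).mahlerMeasure = ∏ τ : L →ₐ[ℚ] ℂ, max 1 ‖τ α‖ := by
      rw [Finset.prod_eq_multiset_prod, prod_mahlerMeasure_eq_mahlerMeasure_prod, Multiset.map_map,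
        Finset.prod_eq_multiset_prod]
      congr 1
      refine Multiset.map_congr rfl fun τ _ => ?_
      rw [Function.comp_apply, mahlerMeasure_X_sub_C]
    rw [h1, Real.log_prod]
    · rfl
    · intro τ _
      have : (0:ℝ) < max 1 ‖τ α‖ := lt_of_lt_of_le one_pos (le_max_left _ _)
      exact this.ne'
  have hfr : finrank ℚ L = p.natDegree := by
    rw [hL, adjoin.finrank hzQ, minpoly.isIntegrallyClosed_eq_field_fractions' ℚ hzi, hmin]
    exact natDegree_map_eq_of_injective (algebraMap ℤ ℚ).injective_int p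
  have hunit : ∏ σ : L →ₐ[ℚ] ℂ, ‖σ α‖ = 1 := by
    have h1 : ((p.coeff 0 : ℤ) : ℂ) = (p.map (Int.castRingHom ℂ)).eval 0 := by
      rw [← Polynomial.coeff_zero_eq_eval_zero, Polynomial.coeff_map]; rfl
    have h2 : |(p.coeff 0 : ℝ)| = ‖((p.coeff 0 : ℤ) : ℂ)‖ := by
      rw [Complex.norm_intCast]
    rw [h2, h1, hpmap, Polynomial.eval_prod, norm_prod] at hc0
    rw [← hc0]
    refine Finset.prod_congr rfl fun σ _ => ?_
    simp
  have hFα : aeval α F = 0 := by
    obtain ⟨q, rfl⟩ := hpF
    rw [map_mul, ← hminα, minpoly.aeval, zero_mul]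
  have h := hc L α hαi hα0 hαroot hunit F hF hFα
  rw [hfr, ← hMM] at h
  exact h

theorem main_log : ∃ c : ℝ, 0 < c ∧ ∀ f F : ℤ[X], F ≠ 0 → f ∣ F →
    (∀ z : ℂ, aeval z f = 0 → z ≠ 0 ∧ ∀ n : ℕ, 0 < n → z ^ n ≠ 1) →
    c * f.natDegree / ((F.support.card : ℝ) ^ 2 * (Real.log (2 * F.support.card)) ^ 4) ≤
        F.natDegree * Real.log (MM f) := by
  obtain ⟨c1, hc1, hc⟩ := sparse_root
  have hlog2 : 0 < Real.log 2 := Real.log_pos (by norm_num)
  refine ⟨min c1 ((Real.log 2) ^ 5), by positivity, ?_⟩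
  set c := min c1 ((Real.log 2) ^ 5) with hcdef
  have hc0 : 0 < c := by positivity
  intro f F hF hfF
  set k := F.support.card with hk
  have hk0 : 0 < k := Finset.card_pos.mpr (Polynomial.support_nonempty.mpr hF)
  have hk1 : (1:ℝ) ≤ k := by exact_mod_cast hk0
  have hly : Real.log 2 ≤ Real.log (2 * k) := Real.log_le_log (by norm_num) (by linarith)
  set W : ℝ := (k : ℝ) ^ 2 * (Real.log (2 * k)) ^ 4 with hW
  have hWge : (Real.log 2) ^ 4 ≤ W := by
    have h1 : (1:ℝ) ≤ k ^ 2 := by nlinarith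
    have h2 : (Real.log 2) ^ 4 ≤ (Real.log (2 * k)) ^ 4 := by gcongr
    have h3 : 0 < (Real.log 2) ^ 4 := by positivity
    nlinarith
  have hW0 : 0 < W := lt_of_lt_of_le (by positivity) hWge
  have hf0 : f ≠ 0 := by
    rintro rfl
    exact hF (zero_dvd_iff.mp hfF)
  -- irreducible case
  have hirr : ∀ p : ℤ[X], Irreducible p → p ∣ F →
      (∀ z : ℂ, aeval z p = 0 → z ≠ 0 ∧ ∀ n : ℕ, 0 < n → z ^ n ≠ 1) →
      c * p.natDegree / W ≤ F.natDegree * Real.log (MM p) := by
    intro p hp hpF hroot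
    have hp0 : p ≠ 0 := hp.ne_zero
    have hdle : (p.natDegree : ℝ) ≤ F.natDegree := by
      exact_mod_cast natDegree_le_of_dvd hpF hF
    have hbig : (2:ℝ) ≤ MM p → c * p.natDegree / W ≤ F.natDegree * Real.log (MM p) := by
      intro h2
      have h3 : Real.log 2 ≤ Real.log (MM p) := Real.log_le_log (by norm_num) h2
      have h4 : c ≤ (Real.log 2) ^ 5 := min_le_right _ _
      rw [div_le_iff₀ hW0]
      calc c * p.natDegree ≤ (Real.log 2) ^ 5 * F.natDegree := by gcongr
        _ = F.natDegree * Real.log 2 * (Real.log 2) ^ 4 := by ring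
        _ ≤ F.natDegree * Real.log (MM p) * W := by
          have h5 : 0 ≤ (F.natDegree : ℝ) * Real.log (MM p) := by
            have : 0 ≤ Real.log (MM p) := by linarith
            positivity
          gcongr
    by_cases hlc : |p.leadingCoeff| = 1
    · by_cases hcc : |p.coeff 0| = 1
      · have hW' : (F.support.card : ℝ) ^ 2 * (Real.log (2 * F.support.card)) ^ 4 = W := rfl
        have hfinal : ∀ q : ℤ[X], Irreducible q → q.Monic → |q.coeff 0| = 1 → q ∣ F →
            (∀ z : ℂ, aeval z q = 0 → z ≠ 0 ∧ ∀ n : ℕ, 0 < n → z ^ n ≠ 1) →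
            c * q.natDegree / W ≤ F.natDegree * Real.log (MM q) := by
          intro q hq hqm hqc hqF hqroot
          have h1 := irr_monic hc q hq hqm (by exact_mod_cast hqc) hqroot F hF hqF
          rw [hW'] at h1
          refine le_trans ?_ h1
          have hcc1 : c ≤ c1 := min_le_left _ _
          exact div_le_div_of_nonneg_right (mul_le_mul_of_nonneg_right hcc1 (Nat.cast_nonneg _)) hW0.le
        rcases (abs_eq (by norm_num : (0:ℤ) ≤ 1)).mp hlc with h | h
        · exact hfinal p hp h hcc hpF hroot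
        · have h1 := hfinal (-p) (by simpa using (irreducible_units_mul (-1 : ℤ[X]ˣ)).mpr hp) (by
            rw [Monic, leadingCoeff_neg, h]; norm_num) (by rw [coeff_neg, abs_neg]; exact hcc)
            ((neg_dvd).mpr hpF) (by
              intro z hz
              rw [map_neg, neg_eq_zero] at hz
              exact hroot z hz)
          rwa [natDegree_neg, MM_neg] at h1
      · apply hbig
        have h0 : p.coeff 0 ≠ 0 := by
          intro h
          have : aeval (0:ℂ) p = 0 := by
            rw [Polynomial.aeval_def, Polynomial.eval₂_eq_eval_map, ← Polynomial.coeff_zero_eq_eval_zero,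
              Polynomial.coeff_map, h, map_zero]
          exact (hroot 0 this).1 rfl
        have h1 : 1 ≤ |p.coeff 0| := Int.one_le_abs h0
        have h2 : 2 ≤ |p.coeff 0| := by omega
        have h3 := coeff_zero_le_MM p
        have h4 : (2:ℝ) ≤ |(p.coeff 0 : ℝ)| := by exact_mod_cast h2
        linarith
    · apply hbig
      have h1 : 1 ≤ |p.leadingCoeff| := Int.one_le_abs (leadingCoeff_ne_zero.mpr hp0)
      have h2 : 2 ≤ |p.leadingCoeff| := by omega
      have h3 := leadingCoeff_le_MM p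
      have h4 : (2:ℝ) ≤ |(p.leadingCoeff : ℝ)| := by exact_mod_cast h2
      linarith
  -- induction on the factorization
  revert hfF
  refine WfDvdMonoid.induction_on_irreducible f ?_ ?_ ?_
  · intro h0F
    exact absurd (zero_dvd_iff.mp h0F) hF
  · intro u hu _ _
    have h1 : u.natDegree = 0 := natDegree_eq_zero_of_isUnit hu
    rw [h1]
    have h2 : 0 ≤ Real.log (MM u) := Real.log_nonneg (one_le_MM hu.ne_zero)
    simp only [Nat.cast_zero, mul_zero, zero_div]
    positivity
  · intro a p ha hp ih hpaF hroot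
    have h1 := ih (dvd_trans (dvd_mul_left a p) hpaF) (fun z hz => hroot z (by rw [map_mul, hz, mul_zero]))
    have h2 := hirr p hp (dvd_trans (dvd_mul_right p a) hpaF)
      (fun z hz => hroot z (by rw [map_mul, hz, zero_mul]))
    rw [MM_mul, Real.log_mul (MM_pos hp.ne_zero).ne' (MM_pos ha).ne', natDegree_mul hp.ne_zero ha]
    push_cast
    rw [mul_add, add_div, mul_add]
    exact add_le_add h2 h1

end Pool.Agent.H388SL
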